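import Pool.Agent.Run7.h735.FM.Fin

/-!
# Tame representations with solvable leading terms, ramified at any set of primes

Let `p` be a prime, `K` a number field without cyclic extensions of degree `p` which are unramified
at all finite primes, `A` a Noetherian local ring of residue characteristic `p` with its adic
topology, and `ρ : G_K → GL_n(A)` a continuous residually unipotent representation, unramified above
`p`, such that for every other prime `v` of `K` the inertia groups at `v` act trivially modulo
`p ^ m > 2` and modulo every power of `p` which divides `N(v) - 1`. There is no bound on `n` or on the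
number of ramified primes (there may be infinitely many) and no condition on residue symbols.

The level of `v` is the exponent `k` with `p ^ k ∥ N(v) - 1`. If it is at least `m`, write
`ρ(τ) = 1 + p ^ k a` for `τ` in an inertia group at `v`; the leading term of `τ` is the reduction of `a`
modulo the maximal ideal.

Suppose that for every `k ≥ m` the leading terms at the primes of level `k` are in a Lie subalgebra
`𝔤` of the matrices over the residue field, and that no nonzero one is in the `r`-th derived algebra
of `𝔤`, for some `r`. This holds if they generate a solvable Lie algebra, for example if they are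
simultaneously triangularizable, or, if `p = 2`, if they are simultaneously block triangular, with
blocks of size at most two.

Then `ρ` is trivial if `p` is a nonzerodivisor in `A`, and for arbitrary `A` its image is finite if
finitely many primes ramify.

Proof. Modulo torsion, let `I` be the ideal generated by the entries of all `ρ(g) - 1`. If `ρ` is not
trivial then a linear functional on `I / 𝔪 I` gives a nonzero homomorphism `φ` from `G_K` to the
matrices over the residue field which is trivial on the inertia groups at all primes but those of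
one level `k`, where it is the leading term `b`, and the tame relation gives `[φ(Frob), b] = u b`
with `u ≠ 0`. The values of `φ` are in the span `W` of the leading terms `b`, since `K` has no
unramified extensions. So the `b` are in `[W, W]`, and in all further derived spaces.
-/

set_option autoImplicit false

open NumberField IsLocalRing

attribute [local instance 100] LieRing.ofAssociativeRing LieAlgebra.ofAssociativeAlgebra

namespace Pool.Agent.Results.MP_f68ac8_nt.SolvableLeadingTerms

/-- the absolute Galois group of the field `K`, with the Krull topology -/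
abbrev AbsGal (K : Type) [Field K] : Type := Gal(AlgebraicClosure K/K)

/-- `τ` lies in the inertia group at the ideal `P` of the ring of all algebraic integers. -/
def InInertia {K : Type} [Field K] (P : Ideal (𝓞 (AlgebraicClosure K))) (τ : AbsGal K) : Prop :=
  ∀ x : 𝓞 (AlgebraicClosure K), τ • x - x ∈ P

/-- Every homomorphism with open kernel from the absolute Galois group of `K` to the group `E`
which is trivial on the inertia groups at all maximal ideals of the ring of all algebraic integers
is trivial. -/
def NoUnramified (K : Type) [Field K] (E : Type) [Group E] : Prop :=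
  ∀ f : AbsGal K →* E, IsOpen (f.ker : Set (AbsGal K)) →
    (∀ P : Ideal (𝓞 (AlgebraicClosure K)), P.IsMaximal → ∀ τ, InInertia P τ → f τ = 1) →
    ∀ g, f g = 1

/-- `K` has no cyclic extension of degree `p` which is unramified at all finite primes. -/
def NoUnramifiedCyclic (K : Type) [Field K] (p : ℕ) : Prop :=
  NoUnramified K (Multiplicative (ZMod p))

/-- `K` has no extension which is unramified at all finite primes. -/
def NoUnramifiedExtension (K : Type) [Field K] : Prop := ∀ (E : Type) [Group E], NoUnramified K E

/-- `K` is the field of rational numbers, or has degree `2`, `3` or `4` and absolute discriminant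
at most `6`, `31` or `158`. -/
def SmallDiscriminant (K : Type) [Field K] [NumberField K] : Prop :=
  Module.finrank ℚ K = 1 ∨ (Module.finrank ℚ K = 2 ∧ |discr K| ≤ 6) ∨
    (Module.finrank ℚ K = 3 ∧ |discr K| ≤ 31) ∨ (Module.finrank ℚ K = 4 ∧ |discr K| ≤ 158)

/-- the norm of the prime of `K` below the maximal ideal `P` -/
noncomputable def norm {K : Type} [Field K] [NumberField K] (P : Ideal (𝓞 (AlgebraicClosure K))) :
    ℕ :=
  Ideal.absNorm (P.comap (algebraMap (𝓞 K) (𝓞 (AlgebraicClosure K))))

section

variable {K : Type} [Field K] {A : Type} [CommRing A] {n : ℕ}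

/-- The reductions of all `ρ g - 1` are nilpotent. -/
def ResiduallyUnipotent [IsLocalRing A] (ρ : AbsGal K →* GL (Fin n) A) : Prop :=
  ∀ g, ∃ M : ℕ, ∀ i j, (((ρ g : Matrix (Fin n) (Fin n) A) - 1) ^ M) i j ∈ maximalIdeal A

/-- `ρ` is unramified at the maximal ideal `P` of the ring of all algebraic integers. -/
def UnramifiedAt (ρ : AbsGal K →* GL (Fin n) A) (P : Ideal (𝓞 (AlgebraicClosure K))) : Prop :=
  ∀ τ, InInertia P τ → ρ τ = 1

/-- `ρ` is unramified at all primes above `p`. -/
def UnramifiedAbove (p : ℕ) (ρ : AbsGal K →* GL (Fin n) A) : Prop :=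
  ∀ P : Ideal (𝓞 (AlgebraicClosure K)), P.IsMaximal → (p : 𝓞 (AlgebraicClosure K)) ∈ P →
    UnramifiedAt ρ P

/-- `ρ` is unramified at all primes that do not lie above a prime number in `S`. -/
def UnramifiedOutside (S : Finset ℕ) (ρ : AbsGal K →* GL (Fin n) A) : Prop :=
  ∀ P : Ideal (𝓞 (AlgebraicClosure K)), P.IsMaximal →
    (∀ l ∈ S, (l : 𝓞 (AlgebraicClosure K)) ∉ P) → UnramifiedAt ρ P

/-- For every prime `v` of `K` which does not lie above `p` the inertia groups at `v` act trivially
modulo `p ^ m` and modulo all powers of `p` which divide `N(v) - 1`. -/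
def InertiaCondition [NumberField K] (p m : ℕ) (ρ : AbsGal K →* GL (Fin n) A) : Prop :=
  ∀ P : Ideal (𝓞 (AlgebraicClosure K)), P.IsMaximal → (p : 𝓞 (AlgebraicClosure K)) ∉ P →
    ∀ τ, InInertia P τ → ∀ k : ℕ, k ≤ m ∨ p ^ k ∣ norm P - 1 →
      ∀ i j, (p : A) ^ k ∣ ((ρ τ : Matrix (Fin n) (Fin n) A) - 1) i j

/-- the reduction of a matrix modulo the maximal ideal -/
noncomputable def reduction [IsLocalRing A] (a : Matrix (Fin n) (Fin n) A) :
    Matrix (Fin n) (Fin n) (ResidueField A) := a.map (residue A)

/-- For every prime `v` of `K` which does not lie above `p` and such that `p ^ k` is the exact power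
of `p` dividing `N(v) - 1`, and every `τ` in an inertia group at `v` one has
`ρ τ = 1 + p ^ k a`, where the reduction of `a` (the leading term of `τ`) has the property `Φ`. -/
def LeadingTerms [NumberField K] [IsLocalRing A] (p k : ℕ) (ρ : AbsGal K →* GL (Fin n) A)
    (Φ : Matrix (Fin n) (Fin n) (ResidueField A) → Prop) : Prop :=
  ∀ P : Ideal (𝓞 (AlgebraicClosure K)), P.IsMaximal → (p : 𝓞 (AlgebraicClosure K)) ∉ P →
    (p ^ k ∣ norm P - 1 ∧ ¬ p ^ (k + 1) ∣ norm P - 1) → ∀ τ, InInertia P τ →
      ∃ a : Matrix (Fin n) (Fin n) A,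
        (ρ τ : Matrix (Fin n) (Fin n) A) = 1 + ((p : A) ^ k) • a ∧ Φ (reduction a)

/-- For every `k ≥ m` the leading terms at level `k` are in a Lie algebra `𝔤` of matrices over the
residue field, and the nonzero ones are not in the `r`-th derived algebra of `𝔤`, for some `r`. -/
def LieCondition [NumberField K] [IsLocalRing A] (p m : ℕ) (ρ : AbsGal K →* GL (Fin n) A) : Prop :=
  ∀ k, m ≤ k →
    ∃ (𝔤 : LieSubalgebra (ResidueField A) (Matrix (Fin n) (Fin n) (ResidueField A))) (r : ℕ),
      LeadingTerms p k ρ fun x => ∃ h : x ∈ 𝔤,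
        (⟨x, h⟩ : 𝔤) ∈ LieAlgebra.derivedSeries (ResidueField A) 𝔤 r → x = 0

end

theorem result (K : Type) [Field K] [NumberField K] (p : ℕ) [Fact p.Prime] (m : ℕ)
    (hm : 2 < p ^ m) (n : ℕ)
    (A : Type) [CommRing A] [IsLocalRing A] [IsNoetherianRing A] [TopologicalSpace A]
    (hA : IsAdic (maximalIdeal A)) (hpA : (p : A) ∈ maximalIdeal A)
    (ρ : AbsGal K →* GL (Fin n) A) (hρ : Continuous ρ)
    (hK : SmallDiscriminant K ∨ NoUnramifiedExtension K ∨
      (NoUnramifiedCyclic K p ∧ ResiduallyUnipotent ρ))
    (hur : UnramifiedAbove p ρ) (hI : InertiaCondition p m ρ) (hL : LieCondition p m ρ) :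
    ((∀ a : A, (p : A) ^ (m + 1) * a = 0 → (p : A) ^ m * a = 0) → ∀ g, ρ g = 1) ∧
    (∀ S : Finset ℕ, (∀ l ∈ S, l.Prime) → UnramifiedOutside S ρ → (Set.range ρ).Finite) := by
  have hcts : ∀ N : ℕ, ∀ᶠ g in nhds (1 : AbsGal K), Pool.Agent.TH831.NA.MJ (maximalIdeal A ^ N)
      ((ρ g : Matrix (Fin n) (Fin n) A) - 1) := fun N => Pool.Agent.TH831.NA.cts_memN hA hρ N
  have hall : Pool.Agent.R417.FK.NoUrAll K ∨ (Pool.Agent.R417.FK.NoUr K p ∧
      ResiduallyUnipotent ρ) := by
    rcases hK with (h | h) | h | h
    · exact Or.inl (Pool.Agent.R417.FK.noUrAll_one h)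
    · exact Or.inl (Pool.Agent.R417.FK.noUrAll_small h)
    · exact Or.inl h
    · exact Or.inr h
  have hG : Pool.Agent.R417.FK.Good ρ := by
    rcases hall with h | ⟨h1, h2⟩
    · exact Pool.Agent.R417.FK.good_all h hcts
    · exact Pool.Agent.R417.FK.good_p (p := p) h1 hpA hcts h2
  have hK2 : Pool.Agent.R417.FK.NoUr K p := by
    rcases hall with h | ⟨h1, -⟩
    · exact Pool.Agent.R417.FK.noUr_of_all h p
    · exact h1
  have hL' : ∀ k, ∃ (𝔤 : LieSubalgebra (ResidueField A) (Matrix (Fin n) (Fin n) (ResidueField A)))
      (r : ℕ), m ≤ k → LeadingTerms p k ρ fun x => ∃ h : x ∈ 𝔤,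
        (⟨x, h⟩ : 𝔤) ∈ LieAlgebra.derivedSeries (ResidueField A) 𝔤 r → x = 0 := by
    intro k
    by_cases hk : m ≤ k
    · obtain ⟨𝔤, r, h⟩ := hL k hk
      exact ⟨𝔤, r, fun _ => h⟩
    · exact ⟨⊥, 0, fun h => absurd h hk⟩
  choose 𝔤 r h𝔤 using hL'
  refine Pool.Agent.Run7.h735.FM.finalS hpA hcts hG hK2 hm hur hI
    (L := fun k => (𝔤 k).toSubmodule) (Z := fun k => Pool.Agent.Run7.h735.FM.der (𝔤 k) (r k))
    (fun k _ => Pool.Agent.Run7.h735.FM.sol_of_lie (𝔤 k) (r k))
    (Pool.Agent.Run7.h735.FM.lead_of ?_)
  intro P hP hpP τ hτ k hmk hk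
  obtain ⟨a, ha, h1, h2⟩ := h𝔤 k hmk P hP hpP hk τ hτ
  refine ⟨a, by rw [ha, add_sub_cancel_left], h1, fun h3 => h2 ?_⟩
  exact Pool.Agent.Run7.h735.FM.mem_der.1 h3

end Pool.Agent.Results.MP_f68ac8_nt.SolvableLeadingTerms
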