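import Pool.Agent.Run7.h735.FM.Fin

/-!
# Symplectic and orthogonal 2-adic representations, ramified at any set of primes

Let `K` be a number field without quadratic extensions which are unramified at all finite primes
(the narrow class number is odd), `A` a Noetherian local ring of residue characteristic two with its
adic topology, and `ρ : G_K → GL_n(A)` a continuous residually unipotent representation, unramified
above `2`, such that for every other prime `v` of `K` the inertia groups at `v` act trivially modulo
`4` and modulo every power of two which divides `N(v) - 1`. There is no bound on the number of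
ramified primes (there may be infinitely many) and no condition on residue symbols.

For `τ` in an inertia group at `v` with `2 ^ k ∥ N(v) - 1`, `k ≥ m ≥ 2`, write `ρ(τ) = 1 + 2 ^ k a`;
the leading term of `τ` is the reduction of `a` modulo the maximal ideal.

Suppose that `ρ` preserves up to similitude a bilinear form `B` over `A` whose reduction is alternating,
and that one of the following holds.

* The reduction of `B` has rank at most four and a radical of dimension at most two. For example,
  `ρ` has values in `GL_2(A)` (`B = 0`), in `GSp_4(A)`, or in the similitude group of a regular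
  quadratic form in at most five variables.
* The determinant of `B` is a unit and all leading terms have rank at most one, as those of
  transvections (in any dimension).
* For all leading terms `a ≠ 0` the monodromy form `B(x, a y)` is not alternating (in any dimension).

Then `ρ` is trivial if `2` is a nonzerodivisor in `A`, and for arbitrary `A` its image is finite if
finitely many primes ramify. The case `n = 2` is `DimensionTwoNumberFields` (helper417).

Proof. Modulo torsion, let `I` be the ideal generated by the entries of all `ρ(g) - 1`. If `ρ` is not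
trivial then a linear functional on `I / 𝔪 I` gives a nonzero homomorphism `φ` from `G_K` to the
matrices over the residue field which is trivial on the inertia groups at all primes but those of
one level `k`, where it is the leading term `b`, and the tame relation gives `[φ(Frob), b] = u b`
with `u ≠ 0`. The values of `φ` are in the span `W` of the leading terms `b`, since `K` has no
unramified extensions. So the `b` are in `[W, W]`, and in all further derived spaces. In
characteristic two the commutators of the infinitesimal similitudes of an alternating form `B` preserve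
it, and their commutators `X` satisfy `B(v, X v) = 0`. If `B` is nondegenerate of rank four, the
Cayley-Hamilton theorem for Pfaffians gives `[X, Y] = t(X) Y + t(Y) X + s(X, Y)` for all such `X`, `Y`.
So the Lie algebra of `GSp_4` is solvable in characteristic two.
-/

set_option autoImplicit false

open NumberField IsLocalRing

namespace Pool.Agent.Results.MP_f68ac8_nt.SymplecticTwoAdic

/-- the absolute Galois group of the field `K`, with the Krull topology -/
abbrev AbsGal (K : Type) [Field K] : Type := Gal(AlgebraicClosure K/K)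

/-- `τ` lies in the inertia group at the ideal `P` of the ring of all algebraic integers. -/
def InInertia {K : Type} [Field K] (P : Ideal (𝓞 (AlgebraicClosure K))) (τ : AbsGal K) : Prop :=
  ∀ x : 𝓞 (AlgebraicClosure K), τ • x - x ∈ P

/-- Every homomorphism with open kernel from the absolute Galois group of `K` to the group `E`
which is trivial on the inertia groups at all maximal ideals of the ring of all algebraic integers
is trivial. -/
def NoUnramified (K : Type) [Field K] (E : Type) [Group E] : Prop :=
  ∀ f : AbsGal K →* E, IsOpen (f.ker : Set (AbsGal K)) →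
    (∀ P : Ideal (𝓞 (AlgebraicClosure K)), P.IsMaximal → ∀ τ, InInertia P τ → f τ = 1) →
    ∀ g, f g = 1

/-- `K` has no quadratic extension which is unramified at all finite primes. -/
def NoUnramifiedQuadratic (K : Type) [Field K] : Prop := NoUnramified K (Multiplicative (ZMod 2))

/-- `K` has no extension which is unramified at all finite primes. -/
def NoUnramifiedExtension (K : Type) [Field K] : Prop := ∀ (E : Type) [Group E], NoUnramified K E

/-- `K` is the field of rational numbers, or has degree `2`, `3` or `4` and absolute discriminant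
at most `6`, `31` or `158`. -/
def SmallDiscriminant (K : Type) [Field K] [NumberField K] : Prop :=
  Module.finrank ℚ K = 1 ∨ (Module.finrank ℚ K = 2 ∧ |discr K| ≤ 6) ∨
    (Module.finrank ℚ K = 3 ∧ |discr K| ≤ 31) ∨ (Module.finrank ℚ K = 4 ∧ |discr K| ≤ 158)

/-- the norm of the prime of `K` below the maximal ideal `P` -/
noncomputable def norm {K : Type} [Field K] [NumberField K] (P : Ideal (𝓞 (AlgebraicClosure K))) :
    ℕ :=
  Ideal.absNorm (P.comap (algebraMap (𝓞 K) (𝓞 (AlgebraicClosure K))))

section

variable {K : Type} [Field K] {A : Type} [CommRing A] {n : ℕ}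

/-- The reductions of all `ρ g - 1` are nilpotent. -/
def ResiduallyUnipotent [IsLocalRing A] (ρ : AbsGal K →* GL (Fin n) A) : Prop :=
  ∀ g, ∃ M : ℕ, ∀ i j, (((ρ g : Matrix (Fin n) (Fin n) A) - 1) ^ M) i j ∈ maximalIdeal A

/-- `ρ` is unramified at the maximal ideal `P` of the ring of all algebraic integers. -/
def UnramifiedAt (ρ : AbsGal K →* GL (Fin n) A) (P : Ideal (𝓞 (AlgebraicClosure K))) : Prop :=
  ∀ τ, InInertia P τ → ρ τ = 1

/-- `ρ` is unramified at all primes above `2`. -/
def UnramifiedAboveTwo (ρ : AbsGal K →* GL (Fin n) A) : Prop :=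
  ∀ P : Ideal (𝓞 (AlgebraicClosure K)), P.IsMaximal → (2 : 𝓞 (AlgebraicClosure K)) ∈ P →
    UnramifiedAt ρ P

/-- `ρ` is unramified at all primes that do not lie above a prime number in `S`. -/
def UnramifiedOutside (S : Finset ℕ) (ρ : AbsGal K →* GL (Fin n) A) : Prop :=
  ∀ P : Ideal (𝓞 (AlgebraicClosure K)), P.IsMaximal →
    (∀ l ∈ S, (l : 𝓞 (AlgebraicClosure K)) ∉ P) → UnramifiedAt ρ P

/-- For every prime `v` of `K` which does not lie above `2` the inertia groups at `v` act trivially
modulo `2 ^ m` and modulo all powers of two which divide `N(v) - 1`. -/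
def InertiaCondition [NumberField K] (m : ℕ) (ρ : AbsGal K →* GL (Fin n) A) : Prop :=
  ∀ P : Ideal (𝓞 (AlgebraicClosure K)), P.IsMaximal → (2 : 𝓞 (AlgebraicClosure K)) ∉ P →
    ∀ τ, InInertia P τ → ∀ k : ℕ, k ≤ m ∨ 2 ^ k ∣ norm P - 1 →
      ∀ i j, (2 : A) ^ k ∣ ((ρ τ : Matrix (Fin n) (Fin n) A) - 1) i j

/-- the reduction of a matrix modulo the maximal ideal -/
noncomputable def reduction [IsLocalRing A] (a : Matrix (Fin n) (Fin n) A) :
    Matrix (Fin n) (Fin n) (ResidueField A) := a.map (residue A)

/-- For every prime `v` of `K` which does not lie above `2` and such that `2 ^ k` is the exact power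
of two dividing `N(v) - 1`, with `k ≥ m`, and every `τ` in an inertia group at `v` one has
`ρ τ = 1 + 2 ^ k a`, where the reduction of `a` (the leading term of `τ`) has the property `Φ`. -/
def LeadingTerms [NumberField K] [IsLocalRing A] (m : ℕ) (ρ : AbsGal K →* GL (Fin n) A)
    (Φ : Matrix (Fin n) (Fin n) (ResidueField A) → Prop) : Prop :=
  ∀ P : Ideal (𝓞 (AlgebraicClosure K)), P.IsMaximal → (2 : 𝓞 (AlgebraicClosure K)) ∉ P →
    ∀ τ, InInertia P τ → ∀ k : ℕ, m ≤ k → (2 ^ k ∣ norm P - 1 ∧ ¬ 2 ^ (k + 1) ∣ norm P - 1) →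
      ∃ a : Matrix (Fin n) (Fin n) A,
        (ρ τ : Matrix (Fin n) (Fin n) A) = 1 + ((2 : A) ^ k) • a ∧ Φ (reduction a)

/-- `ρ` preserves, up to similitude, a bilinear form `B` over `A` whose reduction is alternating, and
either the reduction of `B` has rank at most four and a radical of dimension at most two, or the
determinant of `B` is a unit and the leading terms have rank at most one, or for
all leading terms `x ≠ 0` the form with the matrix `B x` is not alternating. -/
def FormCondition [NumberField K] [IsLocalRing A] (m : ℕ) (ρ : AbsGal K →* GL (Fin n) A) : Prop :=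
  ∃ B : Matrix (Fin n) (Fin n) A,
    (∀ i, B i i ∈ maximalIdeal A) ∧ (∀ i j, B i j + B j i ∈ maximalIdeal A) ∧
    (∀ g, ∃ c : A, (ρ g : Matrix (Fin n) (Fin n) A).transpose * B *
      (ρ g : Matrix (Fin n) (Fin n) A) = c • B) ∧
    (((reduction B).rank ≤ 4 ∧ n ≤ (reduction B).rank + 2) ∨
      (IsUnit B.det ∧ LeadingTerms m ρ fun x => x.rank ≤ 1) ∨
      LeadingTerms m ρ fun x => x = 0 ∨
        ∃ v : Fin n → ResidueField A, v ⬝ᵥ Matrix.mulVec (reduction B * x) v ≠ 0)

end

theorem result (K : Type) [Field K] [NumberField K] (m : ℕ) (hm : 2 ≤ m) (n : ℕ)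
    (A : Type) [CommRing A] [IsLocalRing A] [IsNoetherianRing A] [TopologicalSpace A]
    (hA : IsAdic (maximalIdeal A)) (h2A : (2 : A) ∈ maximalIdeal A)
    (ρ : AbsGal K →* GL (Fin n) A) (hρ : Continuous ρ)
    (hK : SmallDiscriminant K ∨ NoUnramifiedExtension K ∨
      (NoUnramifiedQuadratic K ∧ ResiduallyUnipotent ρ))
    (hur : UnramifiedAboveTwo ρ) (hI : InertiaCondition m ρ) (hF : FormCondition m ρ) :
    ((∀ a : A, 2 ^ (m + 1) * a = 0 → 2 ^ m * a = 0) → ∀ g, ρ g = 1) ∧
    (∀ S : Finset ℕ, (∀ l ∈ S, l.Prime) → UnramifiedOutside S ρ → (Set.range ρ).Finite) := by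
  have hp2 : Fact (Nat.Prime 2) := ⟨Nat.prime_two⟩
  have hcts : ∀ N : ℕ, ∀ᶠ g in nhds (1 : AbsGal K), Pool.Agent.TH831.NA.MJ (maximalIdeal A ^ N)
      ((ρ g : Matrix (Fin n) (Fin n) A) - 1) := fun N => Pool.Agent.TH831.NA.cts_memN hA hρ N
  have hall : Pool.Agent.R417.FK.NoUrAll K ∨ (Pool.Agent.R417.FK.NoUr K 2 ∧
      ResiduallyUnipotent ρ) := by
    rcases hK with (h | h) | h | h
    · exact Or.inl (Pool.Agent.R417.FK.noUrAll_one h)
    · exact Or.inl (Pool.Agent.R417.FK.noUrAll_small h)
    · exact Or.inl h
    · exact Or.inr h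
  have hpA : ((2 : ℕ) : A) ∈ maximalIdeal A := by exact_mod_cast h2A
  have hG : Pool.Agent.R417.FK.Good ρ := by
    rcases hall with h | ⟨h1, h2⟩
    · exact Pool.Agent.R417.FK.good_all h hcts
    · exact Pool.Agent.R417.FK.good_p (p := 2) h1 hpA hcts h2
  have hK2 : Pool.Agent.R417.FK.NoUr K 2 := by
    rcases hall with h | ⟨h1, -⟩
    · exact Pool.Agent.R417.FK.noUr_of_all h 2
    · exact h1
  have hpm : 2 < 2 ^ m :=
    calc 2 < 2 ^ 2 := by norm_num
      _ ≤ 2 ^ m := Nat.pow_le_pow_right (by norm_num) hm
  have hfin : ∀ {Z L : Submodule (ResidueField A) (Matrix (Fin n) (Fin n) (ResidueField A))},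
      Pool.Agent.Run7.h735.FM.Sol Z L → _ → _ := fun {Z L} hL hTL =>
    Pool.Agent.Run7.h735.FM.finalS (p := 2) hpA hcts hG hK2 hpm
      (fun P hP h2P => hur P hP (by exact_mod_cast h2P))
      (fun P hP h2P τ hτ k hk i j => by
        have := hI P hP (by exact_mod_cast h2P) τ hτ k hk i j
        exact_mod_cast this) (Z := fun _ => Z) (L := fun _ => L) (fun _ _ => hL) hTL
  obtain ⟨B, hB1, hB2, hB3, hB4⟩ := hF
  have hchar : CharP (ResidueField A) 2 := by
    rw [CharP.charP_iff_prime_eq_zero Nat.prime_two, ← map_natCast (residue A),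
      residue_eq_zero_iff]
    exact hpA
  have hb1 : ∀ i, (reduction B) i i = 0 := fun i => (residue_eq_zero_iff _).2 (hB1 i)
  have hb2 : ∀ i j, (reduction B) i j = (reduction B) j i := by
    intro i j
    have h1 := (residue_eq_zero_iff _).2 (hB2 i j)
    rw [map_add] at h1
    exact CharTwo.add_eq_zero.1 h1
  have hform := Pool.Agent.Run7.h735.FM.lead_form (p := 2) hpA (by omega : 1 ≤ m) hB3
  have hcast : ∀ {Φ : Matrix (Fin n) (Fin n) (ResidueField A) → Prop}, LeadingTerms m ρ Φ →
      ∀ P : Ideal (𝓞 (AlgebraicClosure K)), P.IsMaximal →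
      ((2 : ℕ) : 𝓞 (AlgebraicClosure K)) ∉ P →
      ∀ τ, InInertia P τ → ∀ k : ℕ, m ≤ k → (2 ^ k ∣ norm P - 1 ∧ ¬ 2 ^ (k + 1) ∣ norm P - 1) →
      ∃ a : Matrix (Fin n) (Fin n) A,
        (ρ τ : Matrix (Fin n) (Fin n) A) - 1 = (((2 : ℕ) : A) ^ k) • a ∧ Φ (reduction a) := by
    intro Φ h P hP h2P τ hτ k hmk hk
    obtain ⟨a, ha, h1⟩ := h P hP (by exact_mod_cast h2P) τ hτ k hmk hk
    refine ⟨a, ?_, h1⟩
    rw [ha, add_sub_cancel_left]
    push_cast
    rfl
  have hmain : ((∀ a : A, ((2 : ℕ) : A) ^ (m + 1) * a = 0 → ((2 : ℕ) : A) ^ m * a = 0) →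
      ∀ g, ρ g = 1) ∧
      (∀ S : Finset ℕ, (∀ l ∈ S, l.Prime) → UnramifiedOutside S ρ → (Set.range ρ).Finite) := by
    rcases hB4 with ⟨hr, hn⟩ | ⟨hB4, hB5⟩ | hB4
    · refine hfin (Pool.Agent.Run7.h735.FM.sol_gsp hb1 hb2 hr hn) ?_
      intro P hP hpP τ hτ k hmk hk a ha hreg F hF
      exact ⟨hform P hP hpP τ hτ k hmk hk a ha hreg F hF, fun h => h⟩
    · have hu : IsUnit (reduction B) := by
        rw [Matrix.isUnit_iff_isUnit_det]
        have : (reduction B).det = residue A B.det := (RingHom.map_det (residue A) B).symm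
        rw [this]
        exact hB4.map _
      refine hfin (Pool.Agent.Run7.h735.FM.sol_alt hb2) ?_
      have hlead := Pool.Agent.Run7.h735.FM.lead_of (p := 2) (ρ := ρ) (m := m)
        (Z := fun _ => Pool.Agent.Run7.h735.FM.alt (reduction B)) (L := fun _ => ⊤) (by
          intro P hP hpP τ hτ k hmk hk
          obtain ⟨a, ha, h1⟩ := hcast hB5 P hP hpP τ hτ k hmk hk
          refine ⟨a, ha, Submodule.mem_top, fun h2 => ?_⟩
          have h3 := Pool.Agent.Run7.h735.FM.alt_rank_one h2.1 h2.2
            ((Matrix.rank_mul_le_right _ _).trans h1)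
          exact (hu.mul_right_eq_zero).1 h3)
      intro P hP hpP τ hτ k hmk hk a ha hreg F hF
      exact ⟨hform P hP hpP τ hτ k hmk hk a ha hreg F hF,
        (hlead P hP hpP τ hτ k hmk hk a ha hreg F hF).2⟩
    · refine hfin (Pool.Agent.Run7.h735.FM.sol_alt hb2) ?_
      have hlead := Pool.Agent.Run7.h735.FM.lead_of (p := 2) (ρ := ρ) (m := m)
        (Z := fun _ => Pool.Agent.Run7.h735.FM.alt (reduction B)) (L := fun _ => ⊤) (by
          intro P hP hpP τ hτ k hmk hk
          obtain ⟨a, ha, h1⟩ := hcast hB4 P hP hpP τ hτ k hmk hk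
          refine ⟨a, ha, Submodule.mem_top, fun h2 => ?_⟩
          rcases h1 with h1 | ⟨v, hv⟩
          · exact h1
          · exact absurd (Pool.Agent.Run7.h735.FM.quad_zero h2.1 h2.2 v) hv)
      intro P hP hpP τ hτ k hmk hk a ha hreg F hF
      exact ⟨hform P hP hpP τ hτ k hmk hk a ha hreg F hF,
        (hlead P hP hpP τ hτ k hmk hk a ha hreg F hF).2⟩
  refine ⟨fun h => hmain.1 fun a ha => ?_, hmain.2⟩
  have h1 := h a (by exact_mod_cast ha)
  exact_mod_cast h1

end Pool.Agent.Results.MP_f68ac8_nt.SymplecticTwoAdic
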